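import Mathlib
import Pool.Agent.H552R3.Tsen.Zero

/-! Tsen's counting argument over a finite extension of `k(x)`. -/

set_option autoImplicit false
set_option linter.all false

namespace Pool.Agent.H552R3.Tsen

open MvPolynomial

section cS

variable {k L : Type*} [Field k] [Field L] [Algebra k L] {T : Type*}

/-- polynomials with coefficients in a `k`-subspace -/
def cS (S : Submodule k L) : Set (MvPolynomial T L) := {p | ∀ τ, coeff τ p ∈ S}

theorem cS_zero (S : Submodule k L) : (0 : MvPolynomial T L) ∈ cS S := fun τ => by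
  rw [coeff_zero]; exact S.zero_mem

theorem cS_add {S : Submodule k L} {p q : MvPolynomial T L} (hp : p ∈ cS S) (hq : q ∈ cS S) : p + q ∈ cS S :=
  fun τ => by rw [coeff_add]; exact S.add_mem (hp τ) (hq τ)

theorem cS_sum {S : Submodule k L} {ι : Type*} (s : Finset ι) (f : ι → MvPolynomial T L)
    (h : ∀ i ∈ s, f i ∈ cS S) : (∑ i ∈ s, f i) ∈ cS S := by
  classical
  induction s using Finset.induction_on with
  | empty => rw [Finset.sum_empty]; exact cS_zero S
  | insert a s ha ih =>
    rw [Finset.sum_insert ha]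
    exact cS_add (h a (Finset.mem_insert_self _ _)) (ih fun i hi => h i (Finset.mem_insert_of_mem hi))

theorem cS_mono {S S' : Submodule k L} (h : S ≤ S') {p : MvPolynomial T L} (hp : p ∈ cS S) : p ∈ cS S' :=
  fun τ => h (hp τ)

theorem cS_mul {S S' : Submodule k L} {p q : MvPolynomial T L} (hp : p ∈ cS S) (hq : q ∈ cS S') :
    p * q ∈ cS (S * S') := by
  classical
  intro τ
  rw [coeff_mul]
  exact Submodule.sum_mem _ fun x _ => Submodule.mul_mem_mul (hp x.1) (hq x.2)

theorem cS_C {S : Submodule k L} {c : L} (hc : c ∈ S) : (C c : MvPolynomial T L) ∈ cS S := by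
  classical
  intro τ
  rw [coeff_C]
  split_ifs
  · exact hc
  · exact S.zero_mem

theorem cS_one : (1 : MvPolynomial T L) ∈ cS (1 : Submodule k L) :=
  cS_C (c := 1) (Submodule.one_le.1 le_rfl)

theorem cS_pow {S : Submodule k L} {p : MvPolynomial T L} (hp : p ∈ cS S) (j : ℕ) : p ^ j ∈ cS (S ^ j) := by
  induction j with
  | zero => rw [pow_zero, pow_zero]; exact cS_one
  | succ j ih => rw [pow_succ, pow_succ]; exact cS_mul ih hp

theorem cS_prod {S : Submodule k L} {ι : Type*} (s : Finset ι) (p : ι → MvPolynomial T L) (hp : ∀ i, p i ∈ cS S)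
    (d : ι → ℕ) : (∏ i ∈ s, p i ^ d i) ∈ cS (S ^ (∑ i ∈ s, d i)) := by
  classical
  induction s using Finset.induction_on with
  | empty => rw [Finset.prod_empty, Finset.sum_empty, pow_zero]; exact cS_one
  | insert a s ha ih =>
    rw [Finset.prod_insert ha, Finset.sum_insert ha, pow_add]
    exact cS_mul (cS_pow (hp a) _) ih

theorem cS_mono_X {S : Submodule k L} {c : L} (hc : c ∈ S) (t : T) : (C c * X t : MvPolynomial T L) ∈ cS S := by
  classical
  intro τ
  rw [coeff_C_mul, coeff_X']
  split_ifs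
  · rw [mul_one]; exact hc
  · rw [mul_zero]; exact S.zero_mem

end cS

section main

variable {k L : Type*} [Field k] [Field L] [Algebra k L] (x : L)

/-- the span of `1, x, ..., x^(s-1)` -/
def PP (s : ℕ) : Submodule k L := Submodule.span k {z | ∃ i < s, z = x ^ i}

theorem PP_mul (s t : ℕ) : PP (k := k) x s * PP x t ≤ PP x (s + t) := by
  unfold PP
  rw [Submodule.span_mul_span, Submodule.span_le]
  rintro _ ⟨_, ⟨i, hi, rfl⟩, _, ⟨j, hj, rfl⟩, rfl⟩
  exact Submodule.subset_span ⟨i + j, by omega, (pow_add x i j).symm⟩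

theorem PP_mono {s t : ℕ} (h : s ≤ t) : PP (k := k) x s ≤ PP x t := by
  unfold PP
  refine Submodule.span_mono ?_
  rintro _ ⟨i, hi, rfl⟩
  exact ⟨i, by omega, rfl⟩

theorem one_PP : (1 : Submodule k L) ≤ PP x 1 := by
  rw [Submodule.one_le]
  exact Submodule.subset_span ⟨0, by omega, (pow_zero x).symm⟩

theorem PP_pow (s j : ℕ) : (PP (k := k) x s) ^ j ≤ PP x (j * s + 1) := by
  induction j with
  | zero => rw [pow_zero, zero_mul, zero_add]; exact one_PP x
  | succ j ih =>
    rw [pow_succ]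
    refine (mul_le_mul' ih le_rfl).trans ((PP_mul x _ _).trans (PP_mono x ?_))
    rw [Nat.succ_mul]; omega

theorem aeval_mem_PP (p : Polynomial k) (s : ℕ) (hs : p.natDegree < s) : Polynomial.aeval x p ∈ PP (k := k) x s := by
  rw [Polynomial.aeval_eq_sum_range]
  refine Submodule.sum_mem _ fun i hi => Submodule.smul_mem _ _ (Submodule.subset_span ⟨i, ?_, rfl⟩)
  rw [Finset.mem_range] at hi
  omega

variable {J : Type*} [Fintype J] (ω : J → L)

/-- the span of the `ω j` -/
def OO : Submodule k L := Submodule.span k (Set.range ω)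

theorem fin_W (s : ℕ) : Module.Finite k (PP x s * OO ω : Submodule k L) ∧
    Module.finrank k (PP x s * OO ω : Submodule k L) ≤ s * Fintype.card J := by
  classical
  have h : (PP x s * OO ω : Submodule k L) =
      Submodule.span k ((Finset.univ : Finset (Fin s × J)).image (fun ij => x ^ (ij.1 : ℕ) * ω ij.2) : Finset L) := by
    unfold PP OO
    rw [Submodule.span_mul_span]
    congr 1
    ext z
    simp only [Finset.coe_image, Finset.coe_univ, Set.image_univ, Set.mem_range, Prod.exists]
    constructor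
    · rintro ⟨_, ⟨i, hi, rfl⟩, _, ⟨j, rfl⟩, rfl⟩
      exact ⟨⟨i, hi⟩, j, rfl⟩
    · rintro ⟨i, j, rfl⟩
      exact ⟨_, ⟨i, i.2, rfl⟩, _, ⟨j, rfl⟩, rfl⟩
  rw [h]
  constructor
  · exact Module.Finite.span_finset k _
  · refine (finrank_span_finset_le_card _).trans (Finset.card_image_le.trans ?_)
    rw [Finset.card_univ, Fintype.card_prod, Fintype.card_fin]

/-- clearing denominators -/
theorem clear_fg (hx : Transcendental k x)
    (hspan : ∀ z : L, ∃ h : Polynomial k, h ≠ 0 ∧ ∃ p : J → Polynomial k,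
      Polynomial.aeval x h * z = ∑ j, Polynomial.aeval x (p j) * ω j)
    (S : Submodule k L) (hS : S.FG) :
    ∃ h : L, h ≠ 0 ∧ ∃ δ : ℕ, ∀ z ∈ S, h * z ∈ (PP x δ * OO ω : Submodule k L) := by
  classical
  have haev : ∀ h : Polynomial k, h ≠ 0 → Polynomial.aeval x h ≠ 0 := fun h hh h0 =>
    hx ⟨h, hh, h0⟩
  have hone : ∀ z : L, ∃ h : Polynomial k, h ≠ 0 ∧ ∃ δ : ℕ, Polynomial.aeval x h * z ∈ (PP x δ * OO ω : Submodule k L) := by
    intro z
    obtain ⟨h, hh, p, hp⟩ := hspan z
    refine ⟨h, hh, (Finset.univ.sup fun j => (p j).natDegree) + 1, ?_⟩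
    rw [hp]
    refine Submodule.sum_mem _ fun j _ => Submodule.mul_mem_mul (aeval_mem_PP x (p j) _ ?_)
      (Submodule.subset_span ⟨j, rfl⟩)
    exact Nat.lt_succ_of_le (Finset.le_sup (f := fun j => (p j).natDegree) (Finset.mem_univ j))
  obtain ⟨Z, rfl⟩ := hS
  have hfin : ∃ h : Polynomial k, h ≠ 0 ∧ ∃ δ : ℕ, ∀ z ∈ Z, Polynomial.aeval x h * z ∈ (PP x δ * OO ω : Submodule k L) := by
    induction Z using Finset.induction_on with
    | empty => exact ⟨1, one_ne_zero, 0, by simp⟩
    | insert a Z ha ih =>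
      obtain ⟨h1, hh1, δ1, h1'⟩ := ih
      obtain ⟨h2, hh2, δ2, h2'⟩ := hone a
      refine ⟨h1 * h2, mul_ne_zero hh1 hh2, h1.natDegree + 1 + δ2 + (h2.natDegree + 1 + δ1), ?_⟩
      intro z hz
      rcases Finset.mem_insert.1 hz with rfl | hz
      · rw [map_mul, mul_assoc]
        have h3 := Submodule.mul_mem_mul (aeval_mem_PP x h1 (h1.natDegree + 1) (Nat.lt_succ_self _)) h2'
        rw [← mul_assoc] at h3
        exact mul_le_mul' ((PP_mul x _ _).trans (PP_mono x (by omega))) le_rfl h3
      · rw [map_mul, mul_comm (Polynomial.aeval x h1), mul_assoc]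
        have h3 := Submodule.mul_mem_mul (aeval_mem_PP x h2 (h2.natDegree + 1) (Nat.lt_succ_self _)) (h1' z hz)
        rw [← mul_assoc] at h3
        exact mul_le_mul' ((PP_mul x _ _).trans (PP_mono x (by omega))) le_rfl h3
  obtain ⟨h, hh, δ, hz⟩ := hfin
  refine ⟨Polynomial.aeval x h, haev h hh, δ, ?_⟩
  intro z hzS
  induction hzS using Submodule.span_induction with
  | mem z hz' => exact hz z hz'
  | zero => rw [mul_zero]; exact Submodule.zero_mem _
  | add a b _ _ ha hb => rw [mul_add]; exact Submodule.add_mem _ ha hb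
  | smul c a _ ha => rw [mul_smul_comm]; exact Submodule.smul_mem _ _ ha

end main

end Pool.Agent.H552R3.Tsen
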