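import Mathlib
import Pool.Agent.H552R3.Tsen.Count

/-! A finite extension of `k(x)`, `k` algebraically closed, is a `C1` field. -/

set_option autoImplicit false
set_option linter.all false

namespace Pool.Agent.H552R3.Tsen

open MvPolynomial

variable {k L : Type*} [Field k] [Field L] [Algebra k L] (x : L)
variable {J : Type*} [Fintype J] (ω : J → L)

theorem exists_zero [IsAlgClosed k] (hx : Transcendental k x)
    (hspan : ∀ z : L, ∃ h : Polynomial k, h ≠ 0 ∧ ∃ p : J → Polynomial k,
      Polynomial.aeval x h * z = ∑ j, Polynomial.aeval x (p j) * ω j)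
    (hlin : ∀ p : J → Polynomial k, ∑ j, Polynomial.aeval x (p j) * ω j = 0 → ∀ j, p j = 0)
    {I : Type*} [Fintype I] (Ψ : MvPolynomial I L) (n : ℕ) (hdeg : Ψ.totalDegree ≤ n)
    (h0 : eval 0 Ψ = 0) (hcard : n < Fintype.card I) :
    ∃ a : I → L, a ≠ 0 ∧ eval a Ψ = 0 := by
  classical
  have hJ : 0 < Fintype.card J := by
    by_contra hJ
    have hJ' : IsEmpty J := Fintype.card_eq_zero_iff.1 (by omega)
    obtain ⟨h, hh, p, hp⟩ := hspan 1
    rw [mul_one, Finset.univ_eq_empty, Finset.sum_empty] at hp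
    exact hx ⟨h, hh, hp⟩
  let Cc : Submodule k L := Submodule.span k (Ψ.support.image (fun d => coeff d Ψ) : Finset L)
  let O' : Submodule k L := 1 ⊔ OO ω
  have hO'fg : O'.FG := by
    refine Submodule.FG.sup ?_ ?_
    · rw [Submodule.one_eq_span]; exact Submodule.fg_span_singleton _
    · exact Submodule.fg_span (Set.finite_range ω)
  have hCfg : Cc.FG := ⟨_, rfl⟩
  have hSfg : (Cc * O' ^ n).FG := hCfg.mul (hO'fg.pow n)
  obtain ⟨h, hh, δ, hS⟩ := clear_fg x ω hx hspan _ hSfg
  obtain ⟨s, hs⟩ : ∃ s, s = δ + 2 := ⟨_, rfl⟩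
  let W : Submodule k L := PP x (n * s + 1 + δ) * OO ω
  obtain ⟨hWfin, hWrank⟩ := fin_W (k := k) x ω (n * s + 1 + δ)
  let T := I × (Fin s × J)
  let ℓ : I → MvPolynomial T L := fun q => ∑ ij : Fin s × J, C (x ^ (ij.1 : ℕ) * ω ij.2) * X (q, ij)
  have hℓ : ∀ q, ℓ q ∈ cS (PP (k := k) x s * O') := by
    intro q
    refine cS_sum _ _ fun ij _ => cS_mono_X ?_ _
    refine Submodule.mul_mem_mul (Submodule.subset_span ⟨ij.1, ij.1.2, rfl⟩) ?_
    exact (le_sup_right : OO ω ≤ O') (Submodule.subset_span ⟨ij.2, rfl⟩)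
  let Ψ' : MvPolynomial T L := aeval ℓ Ψ
  -- coefficients
  have hcoef : Ψ' ∈ cS (Cc * (PP (k := k) x (n * s + 1) * O' ^ n)) := by
    have h1 : Ψ' = ∑ d ∈ Ψ.support, C (coeff d Ψ) * ∏ i, ℓ i ^ d i := by
      change aeval ℓ Ψ = _
      rw [aeval_def, eval₂_eq']
      rfl
    rw [h1]
    refine cS_sum _ _ fun d hd => cS_mul (cS_C (Submodule.subset_span ?_)) ?_
    · exact Finset.mem_coe.2 (Finset.mem_image_of_mem _ hd)
    · refine cS_mono ?_ (cS_prod Finset.univ ℓ hℓ d)
      have h2 : (∑ i, d i) ≤ n := by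
        refine le_trans ?_ hdeg
        have := le_totalDegree hd
        rwa [Finsupp.sum_fintype _ _ (fun _ => rfl)] at this
      rw [mul_pow]
      refine mul_le_mul' ((PP_pow x s _).trans (PP_mono x ?_)) ?_
      · have := Nat.mul_le_mul_right s h2
        omega
      · exact pow_le_pow_right' (le_sup_left : (1 : Submodule k L) ≤ O') h2
  have hmem : ∀ c ∈ (Cc * (PP (k := k) x (n * s + 1) * O' ^ n)), h * c ∈ W := by
    intro c hc
    have h1 : Cc * (PP (k := k) x (n * s + 1) * O' ^ n) = PP (k := k) x (n * s + 1) * (Cc * O' ^ n) := by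
      rw [mul_left_comm]
    rw [h1] at hc
    refine Submodule.mul_induction_on hc ?_ ?_
    · intro p hp z hz
      rw [mul_left_comm]
      have h2 := Submodule.mul_mem_mul hp (hS z hz)
      rw [← mul_assoc] at h2
      exact mul_le_mul' (PP_mul x _ _) le_rfl h2
    · intro a b ha hb
      rw [mul_add]
      exact Submodule.add_mem _ ha hb
  -- coordinates on `W`
  haveI : Module.Finite k W := hWfin
  let D := Module.finrank k W
  let b := Module.finBasis k W
  obtain ⟨φ, hφ⟩ := LinearMap.exists_extend (b.equivFun : W →ₗ[k] (Fin D → k))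
  have hφ0 : ∀ w ∈ W, φ w = 0 → w = 0 := by
    intro w hw h1
    have h2 := congrArg (fun g => g ⟨w, hw⟩) (congrArg DFunLike.coe hφ)
    simp only [LinearMap.coe_comp, Function.comp_apply, Submodule.subtype_apply] at h2
    rw [h1] at h2
    have h3 : (⟨w, hw⟩ : W) = 0 := by
      apply b.equivFun.injective
      rw [map_zero]
      exact h2.symm
    exact congrArg Subtype.val h3
  let P : Fin D → MvPolynomial T k := fun i => ∑ τ ∈ Ψ'.support, monomial τ (φ (h * coeff τ Ψ') i)
  have hexp : ∀ v : T → k, h * eval (fun t => algebraMap k L (v t)) Ψ' =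
      ∑ τ ∈ Ψ'.support, (∏ t, v t ^ τ t) • (h * coeff τ Ψ') := by
    intro v
    rw [eval_eq', Finset.mul_sum]
    refine Finset.sum_congr rfl fun τ _ => ?_
    rw [Algebra.smul_def, map_prod]
    simp only [map_pow]
    ring
  have hPev : ∀ (v : T → k) (i : Fin D), eval v (P i) = φ (h * eval (fun t => algebraMap k L (v t)) Ψ') i := by
    intro v i
    have e1 : φ (∑ τ ∈ Ψ'.support, (∏ t, v t ^ τ t) • (h * coeff τ Ψ')) i =
        ∑ τ ∈ Ψ'.support, φ ((∏ t, v t ^ τ t) • (h * coeff τ Ψ')) i := by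
      rw [map_sum, Finset.sum_apply]
    rw [hexp, e1]
    simp only [P]
    rw [map_sum]
    refine Finset.sum_congr rfl fun τ _ => ?_
    rw [map_smul, Pi.smul_apply, smul_eq_mul, eval_monomial, Finsupp.prod_fintype _ _ (fun _ => pow_zero _), mul_comm]
  have hev : ∀ w : T → L, eval w Ψ' = eval (fun q => eval w (ℓ q)) Ψ := by
    intro w
    have h1 : (aeval w : MvPolynomial T L →ₐ[L] L).comp (aeval ℓ) = aeval (fun q => aeval w (ℓ q)) := by
      apply MvPolynomial.algHom_ext
      intro q
      simp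
    have h2 := congrArg (fun g => g Ψ) (congrArg DFunLike.coe h1)
    simp only [AlgHom.coe_comp, Function.comp_apply] at h2
    rw [← MvPolynomial.coe_aeval_eq_eval, ← MvPolynomial.coe_aeval_eq_eval]
    exact h2
  have hP0 : ∀ i, eval 0 (P i) = 0 := by
    intro i
    rw [hPev, hev]
    have h1 : (fun q => eval (fun t => algebraMap k L ((0 : T → k) t)) (ℓ q)) = 0 := by
      funext q
      simp [ℓ]
    rw [h1, h0, mul_zero, map_zero]
    rfl
  obtain ⟨v, hv0, hv⟩ := exists_common_zero P hP0 (by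
    rw [Fintype.card_fin, Fintype.card_prod, Fintype.card_prod, Fintype.card_fin]
    refine lt_of_le_of_lt hWrank ?_
    have h2 : n + 1 ≤ Fintype.card I := hcard
    calc (n * s + 1 + δ) * Fintype.card J < ((n + 1) * s) * Fintype.card J := by
          apply Nat.mul_lt_mul_of_pos_right _ hJ
          rw [Nat.add_mul, one_mul]
          omega
      _ ≤ Fintype.card I * (s * Fintype.card J) := by
          rw [← mul_assoc]
          exact Nat.mul_le_mul_right _ (Nat.mul_le_mul_right _ h2))
  refine ⟨fun q => eval (fun t => algebraMap k L (v t)) (ℓ q), ?_, ?_⟩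
  · intro ha
    apply hv0
    funext t
    obtain ⟨q, i, j⟩ := t
    have h1 := congrFun ha q
    have h2 : eval (fun t => algebraMap k L (v t)) (ℓ q) =
        ∑ j, Polynomial.aeval x (∑ i : Fin s, Polynomial.C (v (q, (i, j))) * Polynomial.X ^ (i : ℕ)) * ω j := by
      simp only [ℓ, map_sum, map_mul, eval_C, eval_X, Fintype.sum_prod_type, Polynomial.aeval_C,
        map_pow, Polynomial.aeval_X, Finset.sum_mul]
      rw [Finset.sum_comm]
      refine Finset.sum_congr rfl fun j _ => Finset.sum_congr rfl fun i _ => ?_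
      ring
    rw [h2] at h1
    have h3 := hlin _ h1 j
    have h4 := congrArg (fun p => Polynomial.coeff p (i : ℕ)) h3
    simp only [Polynomial.finset_sum_coeff, Polynomial.coeff_C_mul, Polynomial.coeff_X_pow,
      Polynomial.coeff_zero, mul_ite, mul_one, mul_zero] at h4
    rw [Finset.sum_eq_single i] at h4
    · simpa using h4
    · intro i' _ hi'
      rw [if_neg]
      intro h5
      exact hi' (Fin.ext h5.symm)
    · intro h5
      exact absurd (Finset.mem_univ i) h5
  · rw [← hev]
    have h1 : h * eval (fun t => algebraMap k L (v t)) Ψ' = 0 := by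
      apply hφ0
      · rw [hexp]
        exact Submodule.sum_mem _ fun τ _ => Submodule.smul_mem _ _ (hmem _ (hcoef τ))
      · funext i
        rw [← hPev, hv]
        rfl
    exact (mul_eq_zero.1 h1).resolve_left hh

end Pool.Agent.H552R3.Tsen
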